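import Pool.Agent.Y951.TU.Main

/-!
# Joint digit tests for the multiples of an independent tuple of algebraic numbers

Let `α_1, …, α_r` be real algebraic numbers such that `1, α_1, …, α_r` are linearly independent over
`ℚ` (the case `d = 1` below). The digits of the `r` numbers `m α_1 + y_1, …, m α_r + y_r`,
`1 ≤ m ≤ M`, at any `k` places `n ≤ A log M`, in any bases up to `B`, and also the digits of integral
linear combinations of these numbers, are jointly distributed like those of `r` independent random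
real numbers, with an error `O (M ^ (-δ))`. The same holds for the vectors `Ω m + y`,
`m ∈ {1, …, M} ^ d`, whenever `Ω` is an algebraic matrix to which the theorem of Kronecker applies.
-/

set_option autoImplicit false

open MeasureTheory

namespace Pool.Agent.Results.MP_c8ecb2_nt.DigitTestsOfTupleMultiples

open Pool.Agent.Y951.TU Pool.Agent.Y933.KD

/-- Let `Ω` be an `r × d` matrix of real algebraic numbers such that for every nonzero integer vector
`c` some entry of `c Ω` is irrational (for `d = 1` this means that `1, Ω_1, …, Ω_r` are linearly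
independent over `ℚ`). Let `B`, `k` and `A` be given. There are `δ > 0` and `C` such that for all
`M ≥ 1`, all real vectors `y`, all positive integers `s i ≤ M ^ A` all of whose prime factors are at
most `B` (such as `s i = b ^ n` with `b ≤ B` and `n ≤ A log M / log b`), all nonzero integer vectors
`c i` with entries of absolute value at most `M ^ δ` (such as the unit vectors), and all intervals
`[u i, v i)` in `[0, 1]`, `i < k`: the proportion of the `m` in `{1, …, M} ^ d` such that, for all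
`i < k`, the fractional part of `s i * (c i · (Ω m + y))` lies in `[u i, v i)`, differs from the
Lebesgue measure of the set of the `x` in `[0, 1) ^ r` such that the fractional part of
`s i * (c i · x)` lies in `[u i, v i)` for all `i < k` by at most `C * M ^ (-δ)`. -/
theorem result (r d : ℕ) (Ω : Fin r → Fin d → ℝ) (halg : ∀ j t, IsAlgebraic ℚ (Ω j t))
    (hind : ∀ c : Fin r → ℤ, c ≠ 0 → ∃ t, Irrational (∑ j, (c j : ℝ) * Ω j t)) (B k : ℕ) (A : ℝ) :
    ∃ δ : ℝ, 0 < δ ∧ ∃ C : ℝ, ∀ M : ℕ, 1 ≤ M → ∀ (y : Fin r → ℝ) (s : Fin k → ℕ)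
      (c : Fin k → Fin r → ℤ),
      (∀ i, 0 < s i ∧ (∀ p : ℕ, p.Prime → p ∣ s i → p ≤ B) ∧ (s i : ℝ) ≤ (M : ℝ) ^ A) →
      (∀ i, c i ≠ 0 ∧ ∀ j, |(c i j : ℝ)| ≤ (M : ℝ) ^ δ) →
      ∀ u v : Fin k → ℝ, (∀ i, 0 ≤ u i) → (∀ i, v i ≤ 1) →
      |(((Fintype.piFinset fun _ : Fin d => Finset.Icc 1 M).filter (fun m : Fin d → ℕ =>
          ∀ i, Int.fract ((s i : ℝ) * ∑ j, (c i j : ℝ) * (∑ t, (m t : ℝ) * Ω j t + y j)) ∈
            Set.Ico (u i) (v i))).card : ℝ) / (M : ℝ) ^ d -
        (volume {x : Fin r → ℝ | (∀ j, x j ∈ Set.Ico (0 : ℝ) 1) ∧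
          ∀ i, Int.fract ((s i : ℝ) * ∑ j, (c i j : ℝ) * x j) ∈ Set.Ico (u i) (v i)}).toReal| ≤
        C * (M : ℝ) ^ (-δ) := by
  classical
  obtain ⟨δ, hδ, C, hC⟩ := tests Ω halg hind ((Finset.range (B + 1)).filter Nat.Prime)
    (fun p hp => (Finset.mem_filter.1 hp).2.pos) k A
  refine ⟨δ, hδ, C, fun M hM y s c hs hc u v hu hv => ?_⟩
  have key := hC M hM (Pool.Agent.Y951.TU.unif (box d M) (Pool.Agent.Y951.TU.comb Ω y)) ⟨y, rfl⟩
    (fun i j => s i * c i j) (fun i => ⟨s i, c i, ⟨(hs i).1.ne', fun p hp => by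
      rw [Nat.mem_primeFactors] at hp
      rw [Finset.mem_filter, Finset.mem_range]
      exact ⟨Nat.lt_succ_of_le ((hs i).2.1 p hp.1 hp.2.1), hp.1⟩⟩, (hs i).2.2, (hc i).1, (hc i).2,
      rfl⟩) u v hu hv
  have hlin : ∀ (i : Fin k) (x : Fin r → ℝ), lin r (fun j => (s i : ℤ) * c i j) x =
      (s i : ℝ) * ∑ j, (c i j : ℝ) * x j := by
    intro i x
    rw [lin_apply, Finset.mul_sum]
    refine Finset.sum_congr rfl fun j _ => ?_
    push_cast
    ring
  have hEv : Pool.Agent.Y951.TU.Ev (lin r) (fun i j => (s i : ℤ) * c i j) u v =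
      {x : Fin r → ℝ | ∀ i, Int.fract ((s i : ℝ) * ∑ j, (c i j : ℝ) * x j) ∈
        Set.Ico (u i) (v i)} := by
    ext x
    unfold Pool.Agent.Y951.TU.Ev
    simp only [Set.mem_ofPred_eq, hlin, Set.mem_Ico]
  have hmeas := Pool.Agent.Y951.TU.measurableSet_Ev (φ := lin r) measurable_lin
    (fun i j => (s i : ℤ) * c i j) u v
  rw [Pool.Agent.Y951.TU.real_unif _ _ hmeas, card_box] at key
  rw [hEv] at key hmeas
  have h2 : (Cube r).real {x : Fin r → ℝ | ∀ i, Int.fract ((s i : ℝ) * ∑ j, (c i j : ℝ) * x j) ∈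
        Set.Ico (u i) (v i)} =
      (volume {x : Fin r → ℝ | (∀ j, x j ∈ Set.Ico (0 : ℝ) 1) ∧
          ∀ i, Int.fract ((s i : ℝ) * ∑ j, (c i j : ℝ) * x j) ∈
            Set.Ico (u i) (v i)}).toReal := by
    unfold Measure.real Cube Leb
    rw [← Measure.restrict_pi_pi, Measure.restrict_apply hmeas, ← volume_pi]
    congr 2
    ext x
    simp only [Set.mem_inter_iff, Set.mem_ofPred_eq, Set.mem_pi, Set.mem_univ, forall_true_left]
    exact and_comm
  rw [h2] at key
  push_cast at key
  have h3 : ((Fintype.piFinset fun _ : Fin d => Finset.Icc 1 M).filter (fun m : Fin d → ℕ =>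
      ∀ i, Int.fract ((s i : ℝ) * ∑ j, (c i j : ℝ) * (∑ t, (m t : ℝ) * Ω j t + y j)) ∈
        Set.Ico (u i) (v i))) =
      (box d M).filter (fun m => Pool.Agent.Y951.TU.comb Ω y m ∈
        {x : Fin r → ℝ | ∀ i, Int.fract ((s i : ℝ) * ∑ j, (c i j : ℝ) * x j) ∈
          Set.Ico (u i) (v i)}) := by
    ext m
    simp only [Finset.mem_filter]
    rfl
  rw [h3]
  convert key

end Pool.Agent.Results.MP_c8ecb2_nt.DigitTestsOfTupleMultiples
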