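import Pool.Agent.Y951.TU.Clt

/-!
# The central limit theorem for the digit matrices of the multiples of an independent tuple of
algebraic numbers

Let `α_1, …, α_r` be real algebraic numbers such that `1, α_1, …, α_r` are linearly independent over
`ℚ` (the case `d = 1` below), and let `F` be any function of the `r × w` digit matrices, the `j`-th row
being a word of `w` digits in base `b_j`. For `m` random in `{1, …, M}` the sum of the values of `F`
at `N` consecutive digit matrices of `(m α_1 + y_1, …, m α_r + y_r)` inside the first `A log M` digits is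
asymptotically normal, with the mean and the variance which belong to `r` independent random real
numbers. For instance the number of the places at which the binary digits of `m √2` and `m √3` agree
is `N / 2 + X √N / 2` with `X` asymptotically standard normal. The same holds for the vectors `Ω m + y`,
`m ∈ {1, …, M} ^ d`, whenever `Ω` is an algebraic matrix to which the theorem of Kronecker applies.
-/

set_option autoImplicit false

open Filter Topology

namespace Pool.Agent.Results.MP_c8ecb2_nt.GaussianMatrixCounts

/-- the word of the `k` digits in base `b` of `x` which follow the first `n` digits after the point,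
read as an integer between `0` and `b ^ k - 1` -/
noncomputable def word (b k n : ℕ) (x : ℝ) : ℕ :=
  ⌊(b : ℝ) ^ k * Int.fract ((b : ℝ) ^ n * x)⌋₊

/-- the tuples of words of `w` digits, the `j`-th word in base `b j` -/
def words {r : ℕ} (b : Fin r → ℕ) (w : ℕ) : Finset (Fin r → ℕ) :=
  Fintype.piFinset fun j => Finset.range (b j ^ w)

/-- the mean of `F` over the tuples of words of `w` digits -/
noncomputable def mean {r : ℕ} (b : Fin r → ℕ) (w : ℕ) (F : (Fin r → ℕ) → ℝ) : ℝ :=
  (∑ c ∈ words b w, F c) / ∏ j, (b j : ℝ) ^ w

/-- the covariance of the values of `F` at the tuples of the words of `w` digits at the beginning and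
at the end of a random tuple `c` of words of `w + h` digits -/
noncomputable def covariance {r : ℕ} (b : Fin r → ℕ) (w : ℕ) (F : (Fin r → ℕ) → ℝ) (h : ℕ) : ℝ :=
  (∑ c ∈ words b (w + h), (F (fun j => c j / b j ^ h) - mean b w F) *
    (F (fun j => c j % b j ^ w) - mean b w F)) / ∏ j, (b j : ℝ) ^ (w + h)

/-- the asymptotic variance of the sums -/
noncomputable def variance {r : ℕ} (b : Fin r → ℕ) (w : ℕ) (F : (Fin r → ℕ) → ℝ) : ℝ :=
  covariance b w F 0 + 2 * ∑ h ∈ Finset.Ico 1 w, covariance b w F h

open Classical in
/-- Let `Ω` be an `r × d` matrix of real algebraic numbers such that for every nonzero integer vector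
`c` some entry of `c Ω` is irrational (for `d = 1` this means that `1, Ω_1, …, Ω_r` are linearly
independent over `ℚ`), let `b j ≥ 1`, `j < r`, be bases and `F` a function of the tuples of words of
`w` digits whose asymptotic variance is positive. If `N M → ∞` and `s M j + N M ≤ A log M` for all `j`
and all large `M`, then the proportion of the `m` in `{1, …, M} ^ d` for which the sum of `F` over
the `i < N M`, at the tuples of the words of `w` digits in base `b j` after the first `s M j + i`
digits of the `j`-th entry of `Ω m + y M`, is at most `N M * mean + a * √(variance * N M)` tends, for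
every real `a`, to the value at `a` of the distribution function of the standard normal
distribution. -/
theorem result (r d : ℕ) (hr : 1 ≤ r) (Ω : Fin r → Fin d → ℝ)
    (halg : ∀ j t, IsAlgebraic ℚ (Ω j t))
    (hind : ∀ c : Fin r → ℤ, c ≠ 0 → ∃ t, Irrational (∑ j, (c j : ℝ) * Ω j t)) (b : Fin r → ℕ)
    (hb : ∀ j, 1 ≤ b j) (w : ℕ) (hw : 1 ≤ w) (F : (Fin r → ℕ) → ℝ) (hF : 0 < variance b w F)
    (A : ℝ) (y : ℕ → Fin r → ℝ) (s : ℕ → Fin r → ℕ) (N : ℕ → ℕ) (hN : Tendsto N atTop atTop)
    (hsN : ∀ᶠ M : ℕ in atTop, ∀ j, (s M j : ℝ) + N M ≤ A * Real.log M) (a : ℝ) :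
    Tendsto (fun M : ℕ => (((Fintype.piFinset fun _ : Fin d => Finset.Icc 1 M).filter
      (fun m : Fin d → ℕ => ∑ i ∈ Finset.range (N M),
        F (fun j => word (b j) w (s M j + i) (∑ t, (m t : ℝ) * Ω j t + y M j)) -
          N M * mean b w F ≤ a * √(variance b w F * N M))).card : ℝ) / (M : ℝ) ^ d) atTop
      (𝓝 ((ProbabilityTheory.gaussianReal 0 1).real (Set.Iic a))) := by
  have hp : ∀ k : ℕ, (∏ j, (b j : ℝ) ^ k) = ((∏ j, b j : ℕ) : ℝ) ^ k := by
    intro k
    rw [Finset.prod_pow]
    push_cast
    rfl
  have h1 : ∀ v, mean b v F = Pool.Agent.Y951.TU.mnT b v F := by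
    intro v
    unfold mean Pool.Agent.Y951.TU.mnT
    rw [hp]
    rfl
  have h2 : ∀ h, covariance b w F h = Pool.Agent.Y951.TU.cvT b w F h := by
    intro h
    unfold covariance Pool.Agent.Y951.TU.cvT
    rw [hp, h1]
    rfl
  have h3 : variance b w F = Pool.Agent.Y951.TU.cvT b w F 0 +
      2 * ∑ h ∈ Finset.Ico 1 w, Pool.Agent.Y951.TU.cvT b w F h := by
    unfold variance
    simp only [h2]
  rw [h3] at hF ⊢
  rw [h1]
  have key := Pool.Agent.Y951.TU.clt_tuple Ω halg hind hb hw F hF A y s N hr hN hsN a
  exact key

end Pool.Agent.Results.MP_c8ecb2_nt.GaussianMatrixCounts
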