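import Pool.Agent.Y413.DG.Cor

set_option autoImplicit false

/-!
# Linear independence of the blocks of digits of a tuple of algebraic numbers
-/

namespace Pool.Agent.Results.MP_c8ecb2_nt.IndependentBlocks

open Finset Pool.Agent.Y413.DG

/-- For all but at most `k` of the places `t < N`, the value `u (q + t)` is `u t` plus a constant
`p` (which does not depend on `t`). -/
def Repeats (k q N : ℕ) (u : ℕ → ℝ) : Prop :=
  ∃ p : ℝ, ((range N).filter fun t => u (q + t) ≠ u t + p).card ≤ k

/-- Let `b ≥ 2` and let `α_1, …, α_r` be real algebraic numbers such that `1, α_1, …, α_r` are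
linearly independent over `ℚ`.  For all `T, S, C, k` and all large `n`: any `T` blocks of `n`
consecutive base `b` digits, the `l`-th one taken from `α_(σ l)` after the place `s l ≤ C n`, with
different pairs `(σ l, s l)`, are linearly independent over `ℝ`; more precisely, every nontrivial
real combination of them differs in more than `k` places from every sum of `S` real sequences each
of which repeats itself (up to an additive constant and `k` exceptions) at some distance
`q ≤ n / (4 (S + 1))`. -/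
theorem result (b : ℕ) (hb : 2 ≤ b) (r : ℕ) (α : Fin r → ℝ) (hα : ∀ j, IsAlgebraic ℚ (α j))
    (hind : LinearIndependent ℚ (Matrix.vecCons (1 : ℝ) α)) (T S C k : ℕ) :
    ∃ n₀ : ℕ, ∀ n, n₀ ≤ n → ∀ (a : Fin T → ℝ) (σ : Fin T → Fin r) (s : Fin T → ℕ), a ≠ 0 →
      (Function.Injective fun l => (σ l, s l)) → (∀ l, s l ≤ C * n) →
      ∀ u : Fin S → ℕ → ℝ, (∀ l, ∃ q, 1 ≤ q ∧ 4 * (S + 1) * q ≤ n ∧ Repeats k q n (u l)) →
      k < (univ.filter fun t : Fin n =>
        ∑ l, a l * ((⌊α (σ l) * (b : ℝ) ^ (s l + t + 1)⌋ % (b : ℤ) : ℤ) : ℝ) ≠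
          ∑ l, u l t).card := by
  classical
  obtain ⟨n1, h1⟩ := pert b hb (fun j => Int.fract (α j)) (fun j => alg_fract (hα j))
    (indep_fract (indep_of α hind)) (fun j => dg b (α j)) b (fun j t => dg_bound b hb (α j) t)
    (fun j => exp_dg b hb (α j)) T S C k
  refine ⟨n1, fun n hn a σ s ha hs hsn u hu => ?_⟩
  obtain ⟨f, hf0, hfT, hfd, hf⟩ := toPoly a σ s hs ha (C * n) hsn
  have hf' := hf (fun j t => (dg b (α j) t : ℝ))
  have h := h1 n hn f hfT hfd hf0 (fun l t => -u l t) (by
    intro l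
    obtain ⟨q, hq1, hq2, p, hp⟩ := hu l
    refine ⟨q, hq1, hq2, -p, ?_⟩
    rw [nz_def]
    refine le_trans (Finset.card_le_card ?_) hp
    intro t ht
    rw [mem_filter] at ht ⊢
    refine ⟨ht.1, fun h => ht.2 ?_⟩
    rw [h]
    ring)
  rw [hf', nz_fin] at h
  refine h.trans_le (Finset.card_le_card ?_)
  intro t ht
  rw [mem_filter] at ht ⊢
  refine ⟨ht.1, fun h2 => ht.2 ?_⟩
  rw [Pi.add_apply, Finset.sum_apply, Finset.sum_neg_distrib, ← sub_eq_add_neg, sub_eq_zero]
  exact h2

end Pool.Agent.Results.MP_c8ecb2_nt.IndependentBlocks
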