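import Pool.Agent.Y951.TU.Norm

/-!
# Almost all multiples of an independent tuple of algebraic numbers are jointly normal up to a
multiple of `log M` digits

Let `α_1, …, α_r` be real algebraic numbers such that `1, α_1, …, α_r` are linearly independent over
`ℚ` (the case `d = 1` below), and let `b_1, …, b_r ≥ 2`, `w`, `A` and `ε > 0` be given. For all but at
most `M ^ (1 - c)` of the `m ≤ M`, all the `r × k` digit matrices, `k ≤ w`, whose rows are words of `k`
digits of `m α_1 + y_1, …, m α_r + y_r` in the bases `b_1, …, b_r`, stand with the right frequency in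
all windows inside the first `A log M` digits; the windows of the different rows may start at
different places. The same holds for the vectors `Ω m + y`, `m ∈ {1, …, M} ^ d`, whenever `Ω` is an
algebraic matrix to which the theorem of Kronecker applies.
-/

set_option autoImplicit false

namespace Pool.Agent.Results.MP_c8ecb2_nt.NormalMatricesOfMultiples

/-- the word of the `k` digits in base `b` of `x` which follow the first `n` digits after the point,
read as an integer between `0` and `b ^ k - 1` -/
noncomputable def word (b k n : ℕ) (x : ℝ) : ℕ :=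
  ⌊(b : ℝ) ^ k * Int.fract ((b : ℝ) ^ n * x)⌋₊

open Classical in
/-- Let `Ω` be an `r × d` matrix of real algebraic numbers such that for every nonzero integer vector
`c` some entry of `c Ω` is irrational (for `d = 1` this means that `1, Ω_1, …, Ω_r` are linearly
independent over `ℚ`). Let bases `b j ≥ 2`, `j < r`, and `w`, `A` and `ε > 0` be given. There are
`c > 0` and `M₀` such that for all `M ≥ M₀` and all real vectors `y`, all but at most `M ^ (d - c)` of
the `m` in `{1, …, M} ^ d` have the following property: for every tuple `D` of words of `k ≤ w`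
digits (`D j` in base `b j`), all starting places `s j` and all `N` with `s j + N ≤ A log M` for all
`j`, the number of the `i < N` such that for every `j` the word of `k` digits in base `b j` after the
first `s j + i` digits of the `j`-th entry of `Ω m + y` is `D j` differs from `N / ∏ j, b j ^ k` by at
most `ε log M`. -/
theorem result (r d : ℕ) (hr : 1 ≤ r) (Ω : Fin r → Fin d → ℝ)
    (halg : ∀ j t, IsAlgebraic ℚ (Ω j t))
    (hind : ∀ c : Fin r → ℤ, c ≠ 0 → ∃ t, Irrational (∑ j, (c j : ℝ) * Ω j t)) (b : Fin r → ℕ)
    (hb : ∀ j, 2 ≤ b j) (w : ℕ) (A ε : ℝ) (hε : 0 < ε) :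
    ∃ c : ℝ, 0 < c ∧ ∃ M₀ : ℕ, ∀ M : ℕ, M₀ ≤ M → ∀ y : Fin r → ℝ,
      (((Fintype.piFinset fun _ : Fin d => Finset.Icc 1 M).filter (fun m : Fin d → ℕ =>
        ¬ ∀ (k : ℕ) (D s : Fin r → ℕ) (N : ℕ), 1 ≤ k → k ≤ w → (∀ j, D j < b j ^ k) →
        (∀ j, (s j : ℝ) + N ≤ A * Real.log M) →
        |(((Finset.range N).filter (fun i =>
            ∀ j, word (b j) k (s j + i) (∑ t, (m t : ℝ) * Ω j t + y j) = D j)).card : ℝ) -
          N / ∏ j, (b j : ℝ) ^ k| ≤ ε * Real.log M)).card : ℝ) ≤ (M : ℝ) ^ (d - c) := by
  obtain ⟨c, hc, M₀, h⟩ := Pool.Agent.Y951.TU.normal_tuple hr Ω halg hind hb w A ε hε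
  refine ⟨c, hc, M₀, fun M hM y => ?_⟩
  refine le_trans (le_of_eq ?_) (h M hM y)
  congr 2
  refine Finset.filter_congr fun m _ => ?_
  rw [not_iff_not]
  refine forall_congr' fun k => forall_congr' fun D => forall_congr' fun s => forall_congr' fun N =>
    forall_congr' fun _ => forall_congr' fun _ => forall_congr' fun _ => forall_congr' fun _ => ?_
  have h1 : (∏ j, (b j : ℝ) ^ k) = ((∏ j, b j : ℕ) : ℝ) ^ k := by
    rw [Finset.prod_pow]
    push_cast
    rfl
  have h2 : (Finset.range N).filter (fun i =>
      ∀ j, word (b j) k (s j + i) (∑ t, (m t : ℝ) * Ω j t + y j) = D j) =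
      (Finset.range N).filter (fun i => Pool.Agent.Y951.TU.tw b k (fun j => s j + i)
        (Pool.Agent.Y951.TU.comb Ω y m) = D) := by
    refine Finset.filter_congr fun i _ => ?_
    rw [funext_iff]
    rfl
  rw [h1, h2]

end Pool.Agent.Results.MP_c8ecb2_nt.NormalMatricesOfMultiples
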